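import Pool.Agent.Y40.HRRuler

/-! Every countable set of increasing permutations of the line is contained in a subgroup generated
by two increasing permutations. -/

set_option autoImplicit false

namespace Pool.Agent.Y40.HR

/-- a fast increasing sequence -/
theorem exists_fast (s : ℕ → Pm) : ∃ p : ℕ → ℝ, p 0 = 0 ∧ (∀ n, p n + 1 < p (n + 1)) ∧
    ∀ n, ∀ i, i ≤ n → s i (p n) < p (n + 1) ∧ (s i)⁻¹ (p n) < p (n + 1) := by
  have hex : ∀ (n : ℕ) (x : ℝ), ∃ y : ℝ, x + 1 < y ∧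
      ∀ i, i ≤ n → s i x < y ∧ (s i)⁻¹ x < y := by
    intro n x
    have hfin : ((Finset.range (n + 1)).image (fun i => max (s i x) ((s i)⁻¹ x)) : Set ℝ).Finite :=
      Finset.finite_toSet _
    obtain ⟨b, hb⟩ := hfin.bddAbove
    refine ⟨max b (x + 1) + 1, ?_, ?_⟩
    · have := le_max_right b (x + 1)
      linarith
    · intro i hi
      have h1 : max (s i x) ((s i)⁻¹ x) ≤ b := by
        apply hb
        simp only [Finset.coe_image, Set.mem_image, Finset.coe_range, Set.mem_Iio]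
        exact ⟨i, by omega, rfl⟩
      have h2 := le_max_left (s i x) ((s i)⁻¹ x)
      have h3 := le_max_right (s i x) ((s i)⁻¹ x)
      have h4 := le_max_left b (x + 1)
      exact ⟨by linarith, by linarith⟩
  choose f hf1 hf2 using hex
  let p : ℕ → ℝ := fun n => Nat.rec 0 (fun n x => f n x) n
  refine ⟨p, rfl, fun n => hf1 n (p n), fun n i hi => hf2 n (p n) i hi⟩

/-- the two-sided sequence -/
theorem exists_seq (s : ℕ → Pm) (hs : ∀ i, StrictMono (s i)) :
    ∃ x : ℤ → ℝ, (∀ m, x m + 1 < x (m + 1)) ∧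
      ∀ i, ∃ R : ℕ, ∀ m : ℤ, (R : ℤ) ≤ |m| → x (m - 1) < s i (x m) ∧ s i (x m) < x (m + 1) := by
  obtain ⟨p, hp0, hp1, hp2⟩ := exists_fast s
  -- the reflected elements
  let ng : Pm := Equiv.neg ℝ
  have hng : ∀ x, ng x = -x := fun x => rfl
  obtain ⟨q, hq0, hq1, hq2⟩ := exists_fast (fun i => ng * s i * ng⁻¹)
  have hq2' : ∀ n i, i ≤ n → -q (n + 1) < s i (-q n) ∧ -q (n + 1) < (s i)⁻¹ (-q n) := by
    intro n i hi
    obtain ⟨h1, h2⟩ := hq2 n i hi
    have e1 : (ng * s i * ng⁻¹ : Pm) (q n) = -(s i (-q n)) := rfl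
    have e2 : ((ng * s i * ng⁻¹ : Pm))⁻¹ (q n) = -((s i)⁻¹ (-q n)) := by
      rw [mul_inv_rev, mul_inv_rev, inv_inv]
      rfl
    rw [e1] at h1
    rw [e2] at h2
    exact ⟨by linarith, by linarith⟩
  let x : ℤ → ℝ := fun m => if 0 ≤ m then p m.toNat else -q (-m).toNat
  have hxp : ∀ n : ℕ, x (n : ℤ) = p n := by
    intro n
    simp only [x, if_pos (Int.natCast_nonneg n), Int.toNat_natCast]
  have hxq : ∀ n : ℕ, x (-(n : ℤ)) = -q n := by
    intro n
    rcases Nat.eq_zero_or_pos n with rfl | hn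
    · simp only [Nat.cast_zero, neg_zero, x, le_refl, if_true, Int.toNat_zero, hp0, hq0]
    · have h1 : ¬ (0 ≤ -(n : ℤ)) := by omega
      simp only [x, if_neg h1, neg_neg, Int.toNat_natCast]
  refine ⟨x, ?_, ?_⟩
  · intro m
    obtain ⟨n, rfl | rfl⟩ := m.eq_nat_or_neg
    · have e1 : ((n : ℤ) + 1) = ((n + 1 : ℕ) : ℤ) := by push_cast; rfl
      rw [e1, hxp, hxp]
      exact hp1 n
    · rcases Nat.eq_zero_or_pos n with rfl | hn
      · have e1 : (-((0 : ℕ) : ℤ) + 1) = ((0 + 1 : ℕ) : ℤ) := by norm_num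
        rw [e1, hxp, hxq, hq0]
        have := hp1 0
        rw [hp0] at this
        linarith
      · obtain ⟨k, rfl⟩ : ∃ k, n = k + 1 := ⟨n - 1, by omega⟩
        have e1 : (-((k + 1 : ℕ) : ℤ) + 1) = -(k : ℤ) := by push_cast; ring
        rw [e1, hxq, hxq]
        have := hq1 k
        linarith
  · intro i
    refine ⟨i + 1, ?_⟩
    intro m hm
    obtain ⟨n, rfl | rfl⟩ := m.eq_nat_or_neg
    · have hn : i + 1 ≤ n := by
        rw [Nat.abs_cast] at hm
        exact_mod_cast hm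
      obtain ⟨k, rfl⟩ : ∃ k, n = k + 1 := ⟨n - 1, by omega⟩
      have e1 : (((k + 1 : ℕ) : ℤ) + 1) = ((k + 1 + 1 : ℕ) : ℤ) := by push_cast; rfl
      have e2 : (((k + 1 : ℕ) : ℤ) - 1) = ((k : ℕ) : ℤ) := by push_cast; ring
      rw [e1, e2, hxp, hxp, hxp]
      refine ⟨?_, (hp2 (k + 1) i (by omega)).1⟩
      have h1 := (hp2 k i (by omega)).2
      have h2 := hs i h1
      rw [app_inv] at h2
      exact h2
    · have hn : i + 1 ≤ n := by
        rw [abs_neg, Nat.abs_cast] at hm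
        exact_mod_cast hm
      obtain ⟨k, rfl⟩ : ∃ k, n = k + 1 := ⟨n - 1, by omega⟩
      have e1 : (-((k + 1 : ℕ) : ℤ) + 1) = -(k : ℤ) := by push_cast; ring
      have e2 : (-((k + 1 : ℕ) : ℤ) - 1) = -((k + 1 + 1 : ℕ) : ℤ) := by push_cast; ring
      rw [e1, e2, hxq, hxq, hxq]
      refine ⟨(hq2' (k + 1) i (by omega)).1, ?_⟩
      have h1 := (hq2' k i (by omega)).2
      have h2 := hs i h1
      rw [app_inv] at h2
      exact h2

/-- the piecewise linear homeomorphism taking the integers to a given sequence -/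
theorem exists_theta (x : ℤ → ℝ) (hx : ∀ m, x m + 1 < x (m + 1)) :
    ∃ θ : Pm, StrictMono θ ∧ ∀ m : ℤ, θ m = x m := by
  have hmono : StrictMono x := strictMono_int_of_lt_succ (fun m => by linarith [hx m])
  have hup : ∀ n : ℕ, x 0 + n ≤ x n := by
    intro n
    induction n with
    | zero => simp
    | succ n ih =>
      have := hx n
      push_cast
      linarith
  have hdown : ∀ n : ℕ, x (-(n : ℤ)) ≤ x 0 - n := by
    intro n
    induction n with
    | zero => simp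
    | succ n ih =>
      have := hx (-((n + 1 : ℕ) : ℤ))
      rw [show (-((n + 1 : ℕ) : ℤ) + 1) = -(n : ℤ) by push_cast; ring] at this
      push_cast at this ⊢
      linarith
  let F : ℝ → ℝ := fun y => x ⌊y⌋ + (y - ⌊y⌋) * (x (⌊y⌋ + 1) - x ⌊y⌋)
  have hF0 : ∀ y, x ⌊y⌋ ≤ F y := by
    intro y
    have h1 := Int.floor_le y
    have h2 := hx ⌊y⌋
    have : 0 ≤ (y - ⌊y⌋) * (x (⌊y⌋ + 1) - x ⌊y⌋) := by
      apply mul_nonneg <;> linarith
    change x ⌊y⌋ ≤ x ⌊y⌋ + (y - ⌊y⌋) * (x (⌊y⌋ + 1) - x ⌊y⌋)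
    linarith
  have hF1 : ∀ y, F y < x (⌊y⌋ + 1) := by
    intro y
    have h1 := Int.lt_floor_add_one y
    have h2 := hx ⌊y⌋
    have : 0 < (1 - (y - ⌊y⌋)) * (x (⌊y⌋ + 1) - x ⌊y⌋) := by
      apply mul_pos <;> linarith
    change x ⌊y⌋ + (y - ⌊y⌋) * (x (⌊y⌋ + 1) - x ⌊y⌋) < x (⌊y⌋ + 1)
    linarith
  have hFm : StrictMono F := by
    intro y z hyz
    rcases eq_or_lt_of_le (Int.floor_mono hyz.le) with h | h
    · change x ⌊y⌋ + (y - ⌊y⌋) * (x (⌊y⌋ + 1) - x ⌊y⌋) <
        x ⌊z⌋ + (z - ⌊z⌋) * (x (⌊z⌋ + 1) - x ⌊z⌋)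
      rw [← h]
      have h2 := hx ⌊y⌋
      have : 0 < (z - y) * (x (⌊y⌋ + 1) - x ⌊y⌋) := by
        apply mul_pos <;> linarith
      linarith
    · calc F y < x (⌊y⌋ + 1) := hF1 y
        _ ≤ x ⌊z⌋ := hmono.monotone (by omega)
        _ ≤ F z := hF0 z
  have hFs : Function.Surjective F := by
    intro r
    -- the integer part
    have hex : ∃ n : ℤ, x n ≤ r ∧ ∀ m, x m ≤ r → m ≤ n := by
      obtain ⟨N, hN⟩ := exists_nat_gt (|r - x 0|)
      have h1 := abs_lt.1 hN
      obtain ⟨n, hn1, hn2⟩ := Int.exists_greatest_of_bdd (P := fun m => x m ≤ r)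
        ⟨(N : ℤ), fun m hm => by
          by_contra hlt
          push Not at hlt
          have h2 := hmono hlt
          have h3 := hup N
          linarith [h1.2]⟩
        ⟨-(N : ℤ), by
          have h3 := hdown N
          linarith [h1.1]⟩
      exact ⟨n, hn1, hn2⟩
    obtain ⟨n, hn1, hn2⟩ := hex
    have hn3 : r < x (n + 1) := by
      by_contra hle
      push Not at hle
      have := hn2 (n + 1) hle
      omega
    have hd : 0 < x (n + 1) - x n := by linarith [hx n]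
    have ht0 : 0 ≤ (r - x n) / (x (n + 1) - x n) := by
      apply div_nonneg <;> linarith
    have ht1 : (r - x n) / (x (n + 1) - x n) < 1 := by
      rw [div_lt_one hd]; linarith
    refine ⟨n + (r - x n) / (x (n + 1) - x n), ?_⟩
    have hfl : ⌊(n : ℝ) + (r - x n) / (x (n + 1) - x n)⌋ = n := by
      rw [Int.floor_eq_iff]
      exact ⟨by linarith, by linarith⟩
    change x ⌊(n : ℝ) + (r - x n) / (x (n + 1) - x n)⌋ + _ * _ = r
    rw [hfl]
    field_simp
    ring
  let θ : Pm := Equiv.ofBijective F ⟨hFm.injective, hFs⟩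
  refine ⟨θ, hFm, ?_⟩
  intro m
  change x ⌊(m : ℝ)⌋ + ((m : ℝ) - (⌊(m : ℝ)⌋ : ℤ)) * _ = x m
  rw [Int.floor_intCast, sub_self, zero_mul, add_zero]

/-- members of `K` come from countably many elements of `H0` -/
theorem countable_of_mem (v : Pm) (hv : v ∈ K) :
    ∃ T : Set Pm, T.Countable ∧ T ⊆ H0 ∧ v ∈ Subgroup.closure (insert (tr 1) T) := by
  unfold K at hv
  induction hv using Subgroup.closure_induction with
  | mem x hx =>
    rcases hx with rfl | hx
    · exact ⟨∅, Set.countable_empty, Set.empty_subset _,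
        Subgroup.subset_closure (Set.mem_insert _ _)⟩
    · exact ⟨{x}, Set.countable_singleton _, Set.singleton_subset_iff.2 hx,
        Subgroup.subset_closure (Set.mem_insert_of_mem _ rfl)⟩
  | one => exact ⟨∅, Set.countable_empty, Set.empty_subset _, Subgroup.one_mem _⟩
  | mul x y _ _ ihx ihy =>
    obtain ⟨S, hS1, hS2, hS3⟩ := ihx
    obtain ⟨T, hT1, hT2, hT3⟩ := ihy
    refine ⟨S ∪ T, hS1.union hT1, Set.union_subset hS2 hT2, Subgroup.mul_mem _ ?_ ?_⟩
    · exact Subgroup.closure_mono (Set.insert_subset_insert Set.subset_union_left) hS3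
    · exact Subgroup.closure_mono (Set.insert_subset_insert Set.subset_union_right) hT3
  | inv x _ ih =>
    obtain ⟨S, hS1, hS2, hS3⟩ := ih
    exact ⟨S, hS1, hS2, Subgroup.inv_mem _ hS3⟩

/-- The main theorem: a sequence of increasing permutations of the line is contained in a subgroup
generated by two increasing permutations. -/
theorem main_seq (s : ℕ → Pm) (hs : ∀ i, StrictMono (s i)) :
    ∃ f g : Pm, StrictMono f ∧ StrictMono g ∧ ∀ i, s i ∈ Subgroup.closure ({f, g} : Set Pm) := by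
  obtain ⟨x, hx1, hx2⟩ := exists_seq s hs
  obtain ⟨θ, hθ, hθx⟩ := exists_theta x hx1
  have hθi : ∀ m : ℤ, θ⁻¹ (x m) = m := by
    intro m
    rw [← hθx, inv_app]
  have hmem : ∀ i, θ⁻¹ * s i * θ ∈ K := by
    intro i
    obtain ⟨R, hR⟩ := hx2 i
    apply near_mem _ (inc_mul (inc_mul (inc_inv hθ) (hs i)) hθ) R
    intro m hm
    obtain ⟨h1, h2⟩ := hR m hm
    rw [Equiv.Perm.mul_apply, Equiv.Perm.mul_apply, hθx]
    have h3 := inc_inv hθ h1
    have h4 := inc_inv hθ h2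
    rw [hθi] at h3 h4
    push_cast at h3 h4
    exact ⟨h3, h4⟩
  choose T hT1 hT2 hT3 using fun i => countable_of_mem _ (hmem i)
  have hU : (insert (1 : Pm) (⋃ i, T i)).Countable := (Set.countable_iUnion hT1).insert 1
  have h1H : (1 : Pm) ∈ H0 := ⟨inc_one, Supp.one _⟩
  obtain ⟨t, ht⟩ := hU.exists_eq_range (Set.insert_nonempty _ _)
  have htH : ∀ i, t i ∈ H0 := by
    intro i
    have h1 : t i ∈ insert (1 : Pm) (⋃ i, T i) := by rw [ht]; exact ⟨i, rfl⟩
    rcases h1 with h1 | h1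
    · rw [h1]; exact h1H
    · obtain ⟨j, hj⟩ := Set.mem_iUnion.1 h1
      exact hT2 j hj
  obtain ⟨c, hc1, hc2, hc3⟩ := three_of_countable t htH
  obtain ⟨g, hg1, hg2⟩ := two_of_three c hc1 hc2
  have hle : Subgroup.closure (Set.range c) ≤ Subgroup.closure ({tr 1, g} : Set Pm) := by
    rw [Subgroup.closure_le]
    rintro _ ⟨r, rfl⟩
    exact hg2 r
  have hall : ∀ i, θ⁻¹ * s i * θ ∈ Subgroup.closure ({tr 1, g} : Set Pm) := by
    intro i
    have h1 := hT3 i
    refine (Subgroup.closure_le _).2 ?_ h1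
    intro y hy
    rcases hy with rfl | hy
    · exact Subgroup.subset_closure (Set.mem_insert _ _)
    · have h2 : y ∈ Set.range t := by
        rw [← ht]
        exact Or.inr (Set.mem_iUnion.2 ⟨i, hy⟩)
      obtain ⟨j, rfl⟩ := h2
      exact hle (hc3 j)
  refine ⟨θ * tr 1 * θ⁻¹, θ * g * θ⁻¹, inc_mul (inc_mul hθ (tr_mono 1)) (inc_inv hθ),
    inc_mul (inc_mul hθ hg1) (inc_inv hθ), ?_⟩
  intro i
  have h1 := Subgroup.mem_map_of_mem (MulAut.conj θ).toMonoidHom (hall i)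
  rw [MonoidHom.map_closure] at h1
  have h2 : (MulAut.conj θ).toMonoidHom '' ({tr 1, g} : Set Pm) =
      {θ * tr 1 * θ⁻¹, θ * g * θ⁻¹} := by
    rw [Set.image_pair]
    rfl
  rw [h2] at h1
  have h3 : (MulAut.conj θ).toMonoidHom (θ⁻¹ * s i * θ) = s i := by
    change θ * (θ⁻¹ * s i * θ) * θ⁻¹ = s i
    group
  rw [h3] at h1
  exact h1

end Pool.Agent.Y40.HR
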