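import Mathlib

/-! Increasing permutations of the line: supports, products of disjointly supported families,
cutting, moving a point. -/

set_option autoImplicit false

namespace Pool.Agent.Y40.HR

/-- permutations of the line -/
abbrev Pm : Type := Equiv.Perm ℝ

theorem app_inv (e : Pm) (x : ℝ) : e (e⁻¹ x) = x := e.apply_symm_apply x

theorem inv_app (e : Pm) (x : ℝ) : e⁻¹ (e x) = x := e.symm_apply_apply x

/-- supported in a set -/
def Supp (D : Set ℝ) (v : Pm) : Prop := ∀ x, x ∉ D → v x = x

theorem Supp.mem {D : Set ℝ} {v : Pm} (h : Supp D v) {x : ℝ} (hx : x ∈ D) : v x ∈ D := by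
  by_contra hn
  have h1 := h _ hn
  have h2 := v.injective h1
  rw [h2] at hn
  exact hn hx

theorem Supp.inv {D : Set ℝ} {v : Pm} (h : Supp D v) : Supp D v⁻¹ := by
  intro x hx
  rw [Equiv.Perm.inv_eq_iff_eq]
  exact (h x hx).symm

theorem Supp.mul {D : Set ℝ} {v w : Pm} (h : Supp D v) (h' : Supp D w) : Supp D (v * w) := by
  intro x hx
  rw [Equiv.Perm.mul_apply, h' x hx, h x hx]

theorem Supp.mono {D D' : Set ℝ} {v : Pm} (h : Supp D v) (hD : D ⊆ D') : Supp D' v :=
  fun x hx => h x (fun hx' => hx (hD hx'))

theorem Supp.one (D : Set ℝ) : Supp D 1 := fun _ _ => rfl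

theorem inc_mul {v w : Pm} (hv : StrictMono v) (hw : StrictMono w) : StrictMono (v * w : Pm) :=
  hv.comp hw

theorem inc_one : StrictMono (1 : Pm) := fun _ _ h => h

theorem inc_inv {v : Pm} (hv : StrictMono v) : StrictMono (v⁻¹ : Pm) := by
  intro x y hxy
  have h1 : v (v⁻¹ x) < v (v⁻¹ y) := by
    rw [app_inv, app_inv]
    exact hxy
  exact hv.lt_iff_lt.1 h1

theorem inc_pow {v : Pm} (hv : StrictMono v) (k : ℕ) : StrictMono (v ^ k : Pm) := by
  induction k with
  | zero => exact inc_one
  | succ k ih => rw [pow_succ]; exact inc_mul ih hv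

/-- the product of a disjointly supported family of increasing permutations -/
theorem exists_prod {ι : Type} (D : ι → Set ℝ) (v : ι → Pm)
    (hD : ∀ i j x, x ∈ D i → x ∈ D j → i = j) (hs : ∀ i, Supp (D i) (v i))
    (hm : ∀ i, StrictMono (v i)) :
    ∃ V : Pm, StrictMono V ∧ (∀ i, ∀ x ∈ D i, V x = v i x) ∧
      (∀ x, (∀ i, x ∉ D i) → V x = x) := by
  classical
  let F : (ι → Pm) → ℝ → ℝ := fun w x => if h : ∃ i, x ∈ D i then w h.choose x else x
  have hF1 : ∀ (w : ι → Pm) (i : ι) (x : ℝ), x ∈ D i → F w x = w i x := by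
    intro w i x hx
    have h : ∃ i, x ∈ D i := ⟨i, hx⟩
    have h1 : h.choose = i := hD _ _ x h.choose_spec hx
    simp only [F, dif_pos h, h1]
  have hF2 : ∀ (w : ι → Pm) (x : ℝ), (∀ i, x ∉ D i) → F w x = x := by
    intro w x hx
    have h : ¬ ∃ i, x ∈ D i := by push Not; exact hx
    simp only [F, dif_neg h]
  have hinv : ∀ (w w' : ι → Pm), (∀ i, Supp (D i) (w i)) → (∀ i y, w' i (w i y) = y) →
      ∀ x, F w' (F w x) = x := by
    intro w w' hw hww x
    by_cases h : ∃ i, x ∈ D i
    · obtain ⟨i, hi⟩ := h
      rw [hF1 w i x hi, hF1 w' i _ ((hw i).mem hi), hww]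
    · push Not at h
      rw [hF2 w x h, hF2 w' x h]
  let V : Pm :=
    { toFun := F v
      invFun := F (fun i => (v i)⁻¹)
      left_inv := hinv v (fun i => (v i)⁻¹) hs (fun i y => inv_app _ _)
      right_inv := hinv (fun i => (v i)⁻¹) v (fun i => (hs i).inv)
        (fun i y => app_inv _ _) }
  refine ⟨V, ?_, fun i x hx => hF1 v i x hx, fun x hx => hF2 v x hx⟩
  intro x y hxy
  change F v x < F v y
  by_cases hx : ∃ i, x ∈ D i
  · obtain ⟨i, hi⟩ := hx
    rw [hF1 v i x hi]
    by_cases hy : ∃ j, y ∈ D j
    · obtain ⟨j, hj⟩ := hy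
      rw [hF1 v j y hj]
      by_cases hij : i = j
      · subst hij
        exact hm i hxy
      · have h1 : v j x = x := hs j x (fun h => hij (hD i j x hi h))
        have h2 : v i (v j y) = v j y := by
          apply hs i
          intro h
          exact hij (hD i j _ h ((hs j).mem hj))
        calc v i x = v i (v j x) := by rw [h1]
          _ < v i (v j y) := hm i (hm j hxy)
          _ = v j y := h2
    · push Not at hy
      rw [hF2 v y hy]
      calc v i x < v i y := hm i hxy
        _ = y := hs i y (hy i)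
  · push Not at hx
    rw [hF2 v x hx]
    by_cases hy : ∃ j, y ∈ D j
    · obtain ⟨j, hj⟩ := hy
      rw [hF1 v j y hj]
      calc x = v j x := (hs j x (hx j)).symm
        _ < v j y := hm j hxy
    · push Not at hy
      rw [hF2 v y hy]
      exact hxy

/-- cutting at two fixed points -/
theorem exists_cut (h : Pm) (hm : StrictMono h) (a b : ℝ) (ha : h a = a) (hb : h b = b) :
    ∃ c : Pm, StrictMono c ∧ (∀ x ∈ Set.Ioo a b, c x = h x) ∧ Supp (Set.Ioo a b) c := by
  classical
  have key : ∀ (w : Pm), StrictMono w → w a = a → w b = b → ∀ x, x ∈ Set.Ioo a b →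
      w x ∈ Set.Ioo a b := by
    intro w hw hwa hwb x hx
    refine ⟨?_, ?_⟩
    · calc a = w a := hwa.symm
        _ < w x := hw hx.1
    · calc w x < w b := hw hx.2
        _ = b := hwb
  have hia : h⁻¹ a = a := by rw [Equiv.Perm.inv_eq_iff_eq]; exact ha.symm
  have hib : h⁻¹ b = b := by rw [Equiv.Perm.inv_eq_iff_eq]; exact hb.symm
  let c : Pm :=
    { toFun := fun x => if x ∈ Set.Ioo a b then h x else x
      invFun := fun x => if x ∈ Set.Ioo a b then h⁻¹ x else x
      left_inv := by
        intro x
        by_cases hx : x ∈ Set.Ioo a b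
        · have h1 := key h hm ha hb x hx
          simp only [if_pos hx, if_pos h1, inv_app]
        · simp only [if_neg hx]
      right_inv := by
        intro x
        by_cases hx : x ∈ Set.Ioo a b
        · have h1 := key h⁻¹ (inc_inv hm) hia hib x hx
          simp only [if_pos hx, if_pos h1, app_inv]
        · simp only [if_neg hx] }
  have hc1 : ∀ x, x ∈ Set.Ioo a b → c x = h x := fun x hx => if_pos hx
  have hc2 : ∀ x, x ∉ Set.Ioo a b → c x = x := fun x hx => if_neg hx
  refine ⟨c, ?_, hc1, hc2⟩
  intro x y hxy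
  by_cases hx : x ∈ Set.Ioo a b
  · rw [hc1 x hx]
    by_cases hy : y ∈ Set.Ioo a b
    · rw [hc1 y hy]
      exact hm hxy
    · rw [hc2 y hy]
      have h1 := key h hm ha hb x hx
      have h2 : b ≤ y := by
        by_contra hlt
        push Not at hlt
        exact hy ⟨lt_trans hx.1 hxy, hlt⟩
      exact lt_of_lt_of_le h1.2 h2
  · rw [hc2 x hx]
    by_cases hy : y ∈ Set.Ioo a b
    · rw [hc1 y hy]
      have h1 := key h hm ha hb y hy
      have h2 : x ≤ a := by
        by_contra hlt
        push Not at hlt
        exact hx ⟨hlt, lt_trans hxy hy.2⟩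
      exact lt_of_le_of_lt h2 h1.1
    · rw [hc2 y hy]
      exact hxy

/-- the piecewise linear function moving `p` to `q` inside `(c, d)` -/
noncomputable def pl (c d p q x : ℝ) : ℝ :=
  if x ≤ c then x else if x ≤ p then c + (x - c) * ((q - c) / (p - c))
    else if x ≤ d then d - (d - x) * ((d - q) / (d - p)) else x

theorem pl_pl {c d p q : ℝ} (hcp : c < p) (hpd : p < d) (hcq : c < q) (hqd : q < d) (x : ℝ) :
    pl c d q p (pl c d p q x) = x := by
  have h1 : 0 < p - c := by linarith
  have h2 : 0 < q - c := by linarith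
  have h3 : 0 < d - p := by linarith
  have h4 : 0 < d - q := by linarith
  by_cases hx1 : x ≤ c
  · simp only [pl, if_pos hx1]
  · push Not at hx1
    by_cases hx2 : x ≤ p
    · have e : pl c d p q x = c + (x - c) * ((q - c) / (p - c)) := by
        simp only [pl, if_neg (not_le.2 hx1), if_pos hx2]
      have h5 : 0 < (x - c) * ((q - c) / (p - c)) := by
        have : 0 < x - c := by linarith
        positivity
      have h6 : (x - c) * ((q - c) / (p - c)) ≤ q - c := by
        rw [mul_div_assoc', div_le_iff₀ h1]
        nlinarith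
      rw [e]
      have h7 : ¬ (c + (x - c) * ((q - c) / (p - c)) ≤ c) := by linarith
      have h8 : c + (x - c) * ((q - c) / (p - c)) ≤ q := by linarith
      simp only [pl, if_neg h7, if_pos h8]
      field_simp
      ring
    · push Not at hx2
      by_cases hx3 : x ≤ d
      · have e : pl c d p q x = d - (d - x) * ((d - q) / (d - p)) := by
          simp only [pl, if_neg (not_le.2 hx1), if_neg (not_le.2 hx2), if_pos hx3]
        have h5 : 0 ≤ (d - x) * ((d - q) / (d - p)) := by
          have : 0 ≤ d - x := by linarith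
          positivity
        have h6 : (d - x) * ((d - q) / (d - p)) < d - q := by
          rw [mul_div_assoc', div_lt_iff₀ h3]
          nlinarith
        rw [e]
        have h7 : ¬ (d - (d - x) * ((d - q) / (d - p)) ≤ c) := by linarith
        have h8 : ¬ (d - (d - x) * ((d - q) / (d - p)) ≤ q) := by linarith
        have h9 : d - (d - x) * ((d - q) / (d - p)) ≤ d := by linarith
        simp only [pl, if_neg h7, if_neg h8, if_pos h9]
        field_simp
        ring
      · push Not at hx3
        have e : pl c d p q x = x := by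
          simp only [pl, if_neg (not_le.2 hx1), if_neg (not_le.2 hx2), if_neg (not_le.2 hx3)]
        rw [e]
        have h8 : ¬ (x ≤ q) := by linarith
        simp only [pl, if_neg (not_le.2 hx1), if_neg h8, if_neg (not_le.2 hx3)]

theorem pl_mono {c d p q : ℝ} (hcp : c < p) (hpd : p < d) (hcq : c < q) (hqd : q < d) :
    StrictMono (pl c d p q) := by
  have h1 : 0 < p - c := by linarith
  have h2 : 0 < q - c := by linarith
  have h3 : 0 < d - p := by linarith
  have h4 : 0 < d - q := by linarith
  set α := (q - c) / (p - c) with hα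
  set β := (d - q) / (d - p) with hβ
  have hα0 : 0 < α := by positivity
  have hβ0 : 0 < β := by positivity
  have hα1 : (p - c) * α = q - c := by rw [hα]; field_simp
  have hβ1 : (d - p) * β = d - q := by rw [hβ]; field_simp
  have v1 : ∀ x, x ≤ c → pl c d p q x = x := fun x hx => by simp only [pl, if_pos hx]
  have v2 : ∀ x, c < x → x ≤ p → pl c d p q x = c + (x - c) * α := fun x hx hx' => by
    simp only [pl, if_neg (not_le.2 hx), if_pos hx', hα]
  have v3 : ∀ x, p < x → x ≤ d → pl c d p q x = d - (d - x) * β := fun x hx hx' => by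
    simp only [pl, if_neg (not_le.2 (lt_trans hcp hx)), if_neg (not_le.2 hx), if_pos hx', hβ]
  have v4 : ∀ x, d < x → pl c d p q x = x := fun x hx => by
    simp only [pl, if_neg (not_le.2 (lt_trans (lt_trans hcp hpd) hx)),
      if_neg (not_le.2 (lt_trans hpd hx)), if_neg (not_le.2 hx)]
  intro x y hxy
  rcases le_or_gt x c with hx | hx
  · rw [v1 x hx]
    rcases le_or_gt y c with hy | hy
    · rw [v1 y hy]; exact hxy
    · rcases le_or_gt y p with hy' | hy'
      · rw [v2 y hy hy']; nlinarith [mul_pos (sub_pos.2 hy) hα0]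
      · rcases le_or_gt y d with hy'' | hy''
        · rw [v3 y hy' hy'']; nlinarith [mul_pos (sub_pos.2 hy') hβ0]
        · rw [v4 y hy'']; linarith
  · rcases le_or_gt x p with hx' | hx'
    · rw [v2 x hx hx']
      have hxa : (x - c) * α ≤ q - c := by rw [← hα1]; nlinarith
      rcases le_or_gt y p with hy' | hy'
      · rw [v2 y (by linarith) hy']; nlinarith
      · rcases le_or_gt y d with hy'' | hy''
        · rw [v3 y hy' hy'']; nlinarith [mul_pos (sub_pos.2 hy') hβ0]
        · rw [v4 y hy'']; linarith
    · rcases le_or_gt x d with hx'' | hx''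
      · rw [v3 x hx' hx'']
        rcases le_or_gt y d with hy'' | hy''
        · rw [v3 y (by linarith) hy'']; nlinarith
        · rw [v4 y hy'']; nlinarith [mul_nonneg (sub_nonneg.2 hx'') hβ0.le]
      · rw [v4 x hx'', v4 y (by linarith)]; exact hxy

/-- moving a point inside an interval -/
theorem exists_move (c d p q : ℝ) (hcp : c < p) (hpd : p < d) (hcq : c < q) (hqd : q < d) :
    ∃ φ : Pm, StrictMono φ ∧ Supp (Set.Ioo c d) φ ∧ φ p = q ∧ (p ≤ q → ∀ x, x ≤ φ x) := by
  let φ : Pm :=
    { toFun := pl c d p q
      invFun := pl c d q p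
      left_inv := pl_pl hcp hpd hcq hqd
      right_inv := pl_pl hcq hqd hcp hpd }
  have h1 : 0 < p - c := by linarith
  have h2 : 0 < q - c := by linarith
  have h3 : 0 < d - p := by linarith
  have h4 : 0 < d - q := by linarith
  refine ⟨φ, pl_mono hcp hpd hcq hqd, ?_, ?_, ?_⟩
  · intro x hx
    change pl c d p q x = x
    rcases le_or_gt x c with h | h
    · simp only [pl, if_pos h]
    · have hd : d ≤ x := by
        by_contra hlt
        push Not at hlt
        exact hx ⟨h, hlt⟩
      rcases eq_or_lt_of_le hd with h' | h'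
      · subst h'
        simp only [pl, if_neg (not_le.2 h), if_neg (not_le.2 hpd), if_pos le_rfl]
        ring
      · simp only [pl, if_neg (not_le.2 h), if_neg (not_le.2 (lt_trans hpd h')),
          if_neg (not_le.2 h')]
  · change pl c d p q p = q
    simp only [pl, if_neg (not_le.2 hcp), if_pos le_rfl]
    field_simp
    ring
  · intro hpq x
    change x ≤ pl c d p q x
    unfold pl
    split_ifs with g1 g2 g3
    · exact le_rfl
    · push Not at g1
      have : (x - c) * 1 ≤ (x - c) * ((q - c) / (p - c)) := by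
        apply mul_le_mul_of_nonneg_left _ (by linarith)
        rw [one_le_div h1]; linarith
      linarith
    · push Not at g1 g2
      have : (d - x) * ((d - q) / (d - p)) ≤ (d - x) * 1 := by
        apply mul_le_mul_of_nonneg_left _ (by linarith)
        rw [div_le_one h3]; linarith
      linarith
    · exact le_rfl

end Pool.Agent.Y40.HR
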