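import Pool.Agent.Y40.HRBasic

/-! The group generated by the unit translation and the elements supported in the slots. -/

set_option autoImplicit false

namespace Pool.Agent.Y40.HR

/-- translation -/
noncomputable def tr (t : ℝ) : Pm := Equiv.addRight t

theorem tr_apply (t x : ℝ) : tr t x = x + t := rfl

theorem tr_mono (t : ℝ) : StrictMono (tr t) := by
  intro x y h
  rw [tr_apply, tr_apply]
  linarith

theorem tr_mul (s t : ℝ) : tr s * tr t = tr (s + t) := by
  ext x
  rw [Equiv.Perm.mul_apply, tr_apply, tr_apply, tr_apply]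
  ring

theorem tr_zero : tr 0 = 1 := by
  ext x
  rw [tr_apply, Equiv.Perm.one_apply, add_zero]

theorem tr_inv (t : ℝ) : (tr t)⁻¹ = tr (-t) := by
  rw [inv_eq_iff_mul_eq_one, tr_mul, add_neg_cancel, tr_zero]

theorem tr_natCast (n : ℕ) : tr (n : ℝ) = tr 1 ^ n := by
  induction n with
  | zero => rw [Nat.cast_zero, tr_zero, pow_zero]
  | succ n ih => rw [pow_succ, ← ih, tr_mul, Nat.cast_succ]

theorem tr_mem (G : Subgroup Pm) (h : tr 1 ∈ G) (n : ℤ) : tr (n : ℝ) ∈ G := by
  obtain ⟨k, rfl | rfl⟩ := n.eq_nat_or_neg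
  · rw [Int.cast_natCast, tr_natCast]
    exact G.pow_mem h k
  · rw [Int.cast_neg, Int.cast_natCast, ← tr_inv, tr_natCast]
    exact G.inv_mem (G.pow_mem h k)

/-- the conjugate by a translation -/
noncomputable def cj (t : ℝ) (v : Pm) : Pm := tr t * v * (tr t)⁻¹

theorem cj_apply (t : ℝ) (v : Pm) (x : ℝ) : cj t v x = v (x - t) + t := by
  unfold cj
  rw [tr_inv, Equiv.Perm.mul_apply, Equiv.Perm.mul_apply, tr_apply, tr_apply, sub_eq_add_neg]

theorem cj_mono {t : ℝ} {v : Pm} (h : StrictMono v) : StrictMono (cj t v) := by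
  intro x y hxy
  rw [cj_apply, cj_apply]
  have := h (show x - t < y - t by linarith)
  linarith

theorem cj_mem (G : Subgroup Pm) (h : tr 1 ∈ G) (n : ℤ) (v : Pm) :
    cj (n : ℝ) v ∈ G ↔ v ∈ G := by
  have h1 := tr_mem G h n
  unfold cj
  rw [Subgroup.mul_mem_cancel_right _ (G.inv_mem h1), Subgroup.mul_mem_cancel_left _ h1]

/-- the periodic set of slots -/
def per (a b : ℝ) : Set ℝ := {x | ∃ n : ℤ, 104 * (n : ℝ) + a < x ∧ x < 104 * (n : ℝ) + b}

/-- increasing permutations supported in the slots -/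
def H0 : Set Pm := {v | StrictMono v ∧ Supp (per 0 2) v}

/-- the generated group -/
noncomputable def K : Subgroup Pm := Subgroup.closure (insert (tr 1) H0)

theorem tr1_mem : tr 1 ∈ K := Subgroup.subset_closure (Set.mem_insert _ _)

theorem H0_mem {v : Pm} (h : v ∈ H0) : v ∈ K := Subgroup.subset_closure (Set.mem_insert_of_mem _ h)

/-- increasing permutations fixing the even integers -/
theorem even_mem (h : Pm) (hm : StrictMono h) (he : ∀ m : ℤ, h (2 * m) = 2 * m) : h ∈ K := by
  classical
  -- restriction to the intervals `(2m, 2m+2)`, `m ∈ A`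
  have hex : ∀ A : Set ℤ, ∃ V : Pm, StrictMono V ∧
      (∀ m ∈ A, ∀ x ∈ Set.Ioo (2 * (m : ℝ)) (2 * m + 2), V x = h x) ∧
      (∀ x, (∀ m ∈ A, x ∉ Set.Ioo (2 * (m : ℝ)) (2 * m + 2)) → V x = x) := by
    intro A
    have hc : ∀ m : ℤ, ∃ c : Pm, StrictMono c ∧
        (∀ x ∈ Set.Ioo (2 * (m : ℝ)) (2 * m + 2), c x = h x) ∧
        Supp (Set.Ioo (2 * (m : ℝ)) (2 * m + 2)) c := by
      intro m
      apply exists_cut h hm _ _ (he m)
      have := he (m + 1)
      push_cast at this
      rw [show 2 * (m : ℝ) + 2 = 2 * (m + 1) by ring]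
      exact this
    choose c hc1 hc2 hc3 using hc
    have q1 : ∀ (i j : ℤ) (x : ℝ),
        x ∈ (if i ∈ A then Set.Ioo (2 * (i : ℝ)) (2 * i + 2) else ∅) →
        x ∈ (if j ∈ A then Set.Ioo (2 * (j : ℝ)) (2 * j + 2) else ∅) → i = j := by
      intro i j x hi hj
      by_cases hiA : i ∈ A
      · by_cases hjA : j ∈ A
        · simp only [if_pos hiA] at hi
          simp only [if_pos hjA] at hj
          have h1 : (i : ℝ) < j + 1 := by linarith [hi.1, hj.2]
          have h2 : (j : ℝ) < i + 1 := by linarith [hj.1, hi.2]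
          have h3 : i < j + 1 := by exact_mod_cast h1
          have h4 : j < i + 1 := by exact_mod_cast h2
          omega
        · simp only [if_neg hjA] at hj
          exact hj.elim
      · simp only [if_neg hiA] at hi
        exact hi.elim
    have q2 : ∀ m : ℤ, Supp (if m ∈ A then Set.Ioo (2 * (m : ℝ)) (2 * m + 2) else ∅)
        (if m ∈ A then c m else 1) := by
      intro m
      by_cases hmA : m ∈ A
      · simp only [if_pos hmA]; exact hc3 m
      · simp only [if_neg hmA]; exact Supp.one _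
    have q3 : ∀ m : ℤ, StrictMono (if m ∈ A then c m else 1 : Pm) := by
      intro m
      by_cases hmA : m ∈ A
      · simp only [if_pos hmA]; exact hc1 m
      · simp only [if_neg hmA]; exact inc_one
    obtain ⟨V, hV1, hV2, hV3⟩ := exists_prod _ _ q1 q2 q3
    refine ⟨V, hV1, ?_, ?_⟩
    · intro m hmA x hx
      have := hV2 m x (by simp only [if_pos hmA]; exact hx)
      rw [this]
      simp only [if_pos hmA]
      exact hc2 m x hx
    · intro x hx
      apply hV3
      intro m hxm
      by_cases hmA : m ∈ A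
      · simp only [if_pos hmA] at hxm
        exact hx m hmA hxm
      · simp only [if_neg hmA] at hxm
        exact hxm
  choose V hV1 hV2 hV3 using hex
  -- every point is even or in an interval
  have hpt : ∀ x : ℝ, (∃ m : ℤ, x = 2 * m) ∨ ∃ m : ℤ, x ∈ Set.Ioo (2 * (m : ℝ)) (2 * m + 2) := by
    intro x
    have h1 := Int.floor_le (x / 2)
    have h2 := Int.lt_floor_add_one (x / 2)
    rcases eq_or_lt_of_le h1 with h3 | h3
    · left
      exact ⟨⌊x / 2⌋, by linarith⟩
    · right
      exact ⟨⌊x / 2⌋, by linarith, by linarith⟩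
  have hpreserve : ∀ m : ℤ, ∀ x ∈ Set.Ioo (2 * (m : ℝ)) (2 * m + 2),
      h x ∈ Set.Ioo (2 * (m : ℝ)) (2 * m + 2) := by
    intro m x hx
    refine ⟨?_, ?_⟩
    · calc 2 * (m : ℝ) = h (2 * m) := (he m).symm
        _ < h x := hm hx.1
    · have := he (m + 1)
      push_cast at this
      calc h x < h (2 * m + 2) := hm hx.2
        _ = 2 * m + 2 := by
          rw [show 2 * (m : ℝ) + 2 = 2 * (m + 1) by ring]
          exact this
  have huniq : ∀ (m n : ℤ) (x : ℝ), x ∈ Set.Ioo (2 * (m : ℝ)) (2 * m + 2) →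
      x ∈ Set.Ioo (2 * (n : ℝ)) (2 * n + 2) → m = n := by
    intro i j x hi hj
    have h1 : (i : ℝ) < j + 1 := by linarith [hi.1, hj.2]
    have h2 : (j : ℝ) < i + 1 := by linarith [hj.1, hi.2]
    have h3 : i < j + 1 := by exact_mod_cast h1
    have h4 : j < i + 1 := by exact_mod_cast h2
    omega
  have hVin : ∀ (A : Set ℤ) (m : ℤ), m ∉ A → ∀ x ∈ Set.Ioo (2 * (m : ℝ)) (2 * m + 2),
      V A x = x := by
    intro A m hmA x hx
    apply hV3
    intro n hn hxn
    rw [huniq m n x hx hxn] at hmA
    exact hmA hn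
  have hVeven : ∀ (A : Set ℤ) (m : ℤ), V A (2 * m) = 2 * m := by
    intro A m
    apply hV3
    intro n hn hx
    have h1 : (n : ℝ) < m := by linarith [hx.1]
    have h2 : (m : ℝ) < n + 1 := by linarith [hx.2]
    have h3 : n < m := by exact_mod_cast h1
    have h4 : m < n + 1 := by exact_mod_cast h2
    omega
  -- one residue class
  have hres : ∀ r : ℤ, V {m : ℤ | m % 52 = r} ∈ K := by
    intro r
    by_cases hr : ∃ m : ℤ, m % 52 = r
    · have hr0 : 0 ≤ r ∧ r < 52 := by
        obtain ⟨m, rfl⟩ := hr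
        exact ⟨Int.emod_nonneg _ (by norm_num), Int.emod_lt_of_pos _ (by norm_num)⟩
      rw [← cj_mem K tr1_mem (-(2 * r))]
      apply H0_mem
      refine ⟨cj_mono (hV1 _), ?_⟩
      intro x hx
      rw [cj_apply, hV3]
      · ring
      · intro m hmr hxm
        apply hx
        have h1 : m = 52 * (m / 52) + r := by
          have := Int.mul_ediv_add_emod m 52
          rw [hmr] at this
          omega
        refine ⟨m / 52, ?_, ?_⟩
        · have h2 := hxm.1
          rw [h1] at h2
          push_cast at h2 ⊢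
          linarith
        · have h2 := hxm.2
          rw [h1] at h2
          push_cast at h2 ⊢
          linarith
    · have h1 : V {m : ℤ | m % 52 = r} = 1 := by
        ext x
        apply hV3
        intro m hmr
        exact absurd ⟨m, hmr⟩ hr
      rw [h1]
      exact K.one_mem
  have hind : ∀ r : ℕ, V {m : ℤ | m % 52 < r} ∈ K := by
    intro r
    induction r with
    | zero =>
      have h1 : V {m : ℤ | m % 52 < ((0 : ℕ) : ℤ)} = 1 := by
        ext x
        apply hV3
        intro m hmr
        have : 0 ≤ m % 52 := Int.emod_nonneg _ (by norm_num)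
        have h2 : m % 52 < ((0 : ℕ) : ℤ) := hmr
        omega
      rw [h1]
      exact K.one_mem
    | succ r ih =>
      have h1 : V {m : ℤ | m % 52 < ((r + 1 : ℕ) : ℤ)} =
          V {m : ℤ | m % 52 < (r : ℤ)} * V {m : ℤ | m % 52 = (r : ℤ)} := by
        ext x
        rw [Equiv.Perm.mul_apply]
        rcases hpt x with ⟨m, rfl⟩ | ⟨m, hx⟩
        · rw [hVeven, hVeven, hVeven]
        · by_cases hA : m % 52 = (r : ℤ)
          · have g1 : m ∈ {m : ℤ | m % 52 < ((r + 1 : ℕ) : ℤ)} := by
              simp only [Set.mem_ofPred_eq]; push_cast; omega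
            have g2 : m ∉ {m : ℤ | m % 52 < (r : ℤ)} := by
              simp only [Set.mem_ofPred_eq]; omega
            rw [hV2 _ m g1 x hx, hV2 {m : ℤ | m % 52 = (r : ℤ)} m hA x hx,
              hVin _ m g2 _ (hpreserve m x hx)]
          · rw [hVin {m : ℤ | m % 52 = (r : ℤ)} m hA x hx]
            by_cases hB : m % 52 < (r : ℤ)
            · have g1 : m ∈ {m : ℤ | m % 52 < ((r + 1 : ℕ) : ℤ)} := by
                simp only [Set.mem_ofPred_eq]; push_cast; omega
              rw [hV2 _ m g1 x hx, hV2 {m : ℤ | m % 52 < (r : ℤ)} m hB x hx]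
            · have g1 : m ∉ {m : ℤ | m % 52 < ((r + 1 : ℕ) : ℤ)} := by
                simp only [Set.mem_ofPred_eq]; push_cast; omega
              have g2 : m ∉ {m : ℤ | m % 52 < (r : ℤ)} := hB
              rw [hVin _ m g1 x hx, hVin _ m g2 x hx]
      rw [h1]
      exact K.mul_mem ih (hres _)
  have hfin : h = V {m : ℤ | m % 52 < ((52 : ℕ) : ℤ)} := by
    ext x
    rcases hpt x with ⟨m, rfl⟩ | ⟨m, hx⟩
    · rw [hVeven, he]
    · have g1 : m ∈ {m : ℤ | m % 52 < ((52 : ℕ) : ℤ)} := by
        simp only [Set.mem_ofPred_eq]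
        exact Int.emod_lt_of_pos _ (by norm_num)
      rw [hV2 _ m g1 x hx]
  rw [hfin]
  exact hind 52

/-- increasing permutations with compact support -/
theorem compact_mem : ∀ (L : ℕ) (a : ℤ) (c : Pm), StrictMono c →
    Supp (Set.Ioo (a : ℝ) (a + L)) c → c ∈ K := by
  have base : ∀ (a : ℤ) (c : Pm), StrictMono c → Supp (Set.Ioo (a : ℝ) (a + 2)) c → c ∈ K := by
    intro a c hc hs
    rw [← cj_mem K tr1_mem (-a)]
    apply H0_mem
    refine ⟨cj_mono hc, ?_⟩
    intro x hx
    rw [cj_apply, hs]
    · ring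
    · intro h
      apply hx
      refine ⟨0, ?_, ?_⟩
      · have := h.1
        push_cast at this ⊢
        linarith
      · have := h.2
        push_cast at this ⊢
        linarith
  intro L
  induction L with
  | zero =>
    intro a c hc hs
    apply base a c hc
    apply hs.mono
    intro x hx
    exact ⟨hx.1, by have := hx.2; push_cast at this; linarith⟩
  | succ L ih =>
    intro a c hc hs
    rcases Nat.lt_or_ge L 2 with hL | hL
    · apply base a c hc
      apply hs.mono
      intro x hx
      refine ⟨hx.1, ?_⟩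
      have h1 := hx.2
      have h2 : (L : ℝ) ≤ 1 := by exact_mod_cast Nat.lt_succ_iff.1 hL
      push_cast at h1
      linarith
    · have hL' : (2 : ℝ) ≤ L := by exact_mod_cast hL
      have e1 : ((L + 1 : ℕ) : ℝ) = L + 1 := by push_cast; ring
      rw [e1] at hs
      set p : ℝ := a + L - 1 / 2 with hp
      have hca : c a = a := hs _ (fun h => lt_irrefl _ h.1)
      have hcb : c (a + (L + 1)) = a + (L + 1) := hs _ (fun h => lt_irrefl _ h.2)
      have hq1 : (a : ℝ) < c p := by
        calc (a : ℝ) = c a := hca.symm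
          _ < c p := hc (by rw [hp]; linarith)
      have hq2 : c p < a + (L + 1) := by
        calc c p < c (a + (L + 1)) := hc (by rw [hp]; linarith)
          _ = a + (L + 1) := hcb
      -- an element moving `p` to `c p`
      obtain ⟨u, hu1, hu2, hu3⟩ : ∃ u : Pm, StrictMono u ∧ u ∈ K ∧
          (u p = c p ∧ Supp (Set.Ioo (a : ℝ) (a + (L + 1))) u) := by
        rcases lt_or_ge (c p) (a + L) with hlt | hge
        · obtain ⟨u, h1, h2, h3, _⟩ := exists_move (a : ℝ) (a + L) p (c p)
            (by rw [hp]; linarith) (by rw [hp]; linarith) hq1 hlt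
          refine ⟨u, h1, ih a u h1 h2, h3, h2.mono ?_⟩
          intro x hx
          exact ⟨hx.1, by linarith [hx.2]⟩
        · obtain ⟨u, h1, h2, h3, _⟩ := exists_move ((a : ℝ) + L - 1) (a + L + 1) p (c p)
            (by rw [hp]; linarith) (by rw [hp]; linarith) (by linarith) (by linarith)
          refine ⟨u, h1, base (a + L - 1) u h1 ?_, h3, h2.mono ?_⟩
          · apply h2.mono
            intro x hx
            push_cast
            exact ⟨hx.1, by linarith [hx.2]⟩
          · intro x hx
            exact ⟨by linarith [hx.1], by linarith [hx.2]⟩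
      obtain ⟨hu3, hu4⟩ := hu3
      -- the rest fixes `p`
      set w : Pm := u⁻¹ * c with hw
      have hwm : StrictMono w := inc_mul (inc_inv hu1) hc
      have hws : Supp (Set.Ioo (a : ℝ) (a + (L + 1))) w := hu4.inv.mul hs
      have hwp : w p = p := by
        rw [hw, Equiv.Perm.mul_apply, ← hu3, inv_app]
      have hwa : w a = a := hws _ (fun h => lt_irrefl _ h.1)
      have hwb : w (a + (L + 1)) = a + (L + 1) := hws _ (fun h => lt_irrefl _ h.2)
      obtain ⟨c1, g1, g2, g3⟩ := exists_cut w hwm a p hwa hwp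
      obtain ⟨c2, k1, k2, k3⟩ := exists_cut w hwm p (a + (L + 1)) hwp hwb
      have hc1 : c1 ∈ K := by
        apply ih a c1 g1
        apply g3.mono
        intro x hx
        exact ⟨hx.1, by have := hx.2; rw [hp] at this; linarith⟩
      have hc2 : c2 ∈ K := by
        apply base (a + L - 1) c2 k1
        apply k3.mono
        intro x hx
        have h1 := hx.1
        have h2 := hx.2
        rw [hp] at h1
        push_cast
        exact ⟨by linarith, by linarith⟩
      have hprod : w = c1 * c2 := by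
        ext x
        change w x = c1 (c2 x)
        by_cases hx1 : x ∈ Set.Ioo (a : ℝ) p
        · have h1 : c2 x = x := k3 x (fun h => absurd h.1 (not_lt.2 hx1.2.le))
          rw [h1, g2 x hx1]
        · by_cases hx2 : x ∈ Set.Ioo p ((a : ℝ) + (L + 1))
          · have h1 : c2 x ∈ Set.Ioo p ((a : ℝ) + (L + 1)) := k3.mem hx2
            rw [g3 (c2 x) (fun h => absurd h.2 (not_lt.2 h1.1.le)), k2 x hx2]
          · rw [k3 x hx2, g3 x hx1]
            by_cases hxp : x = p
            · rw [hxp, hwp]
            · apply hws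
              intro h
              rcases lt_trichotomy x p with h1 | h1 | h1
              · exact hx1 ⟨h.1, h1⟩
              · exact hxp h1
              · exact hx2 ⟨h1, h.2⟩
      have hcw : c = u * w := by rw [hw, mul_inv_cancel_left]
      rw [hcw, hprod]
      exact K.mul_mem hu2 (K.mul_mem hc1 hc2)

/-- increasing permutations moving far away integers by less than one -/
theorem near_mem (s : Pm) (hs : StrictMono s) (R : ℕ)
    (h : ∀ m : ℤ, (R : ℤ) ≤ |m| → (m : ℝ) - 1 < s m ∧ s m < m + 1) : s ∈ K := by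
  classical
  -- move the even integers
  have hex : ∀ m : ℤ, ∃ v : Pm, StrictMono v ∧ Supp (Set.Ioo (2 * (m : ℝ) - 1) (2 * m + 1)) v ∧
      ((R : ℤ) ≤ |2 * m| → v (2 * m) = s (2 * m)) := by
    intro m
    by_cases hm : (R : ℤ) ≤ |2 * m|
    · obtain ⟨h1, h2⟩ := h (2 * m) hm
      push_cast at h1 h2
      obtain ⟨v, g1, g2, g3, _⟩ := exists_move (2 * (m : ℝ) - 1) (2 * m + 1) (2 * m) (s (2 * m))
        (by linarith) (by linarith) h1 h2
      exact ⟨v, g1, g2, fun _ => g3⟩
    · exact ⟨1, inc_one, Supp.one _, fun h' => absurd h' hm⟩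
  choose v hv1 hv2 hv3 using hex
  obtain ⟨k, hk1, hk2, hk3⟩ := exists_prod (fun m : ℤ => Set.Ioo (2 * (m : ℝ) - 1) (2 * m + 1)) v
    (by
      intro i j x hi hj
      have h1 : (i : ℝ) < j + 1 := by linarith [hi.1, hj.2]
      have h2 : (j : ℝ) < i + 1 := by linarith [hj.1, hi.2]
      have h3 : i < j + 1 := by exact_mod_cast h1
      have h4 : j < i + 1 := by exact_mod_cast h2
      omega) hv2 hv1
  have hkK : k ∈ K := by
    rw [← cj_mem K tr1_mem 1]
    apply even_mem _ (cj_mono hk1)
    intro m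
    rw [cj_apply, hk3]
    · push_cast; ring
    · intro n hn
      have h1 : (n : ℝ) < m := by have := hn.1; push_cast at this; linarith
      have h2 : (m : ℝ) < n + 1 := by have := hn.2; push_cast at this; linarith
      have h3 : n < m := by exact_mod_cast h1
      have h4 : m < n + 1 := by exact_mod_cast h2
      omega
  set w : Pm := k⁻¹ * s with hw
  have hwm : StrictMono w := inc_mul (inc_inv hk1) hs
  have hwfix : ∀ m : ℤ, (R : ℤ) ≤ |2 * m| → w (2 * m) = 2 * m := by
    intro m hm
    rw [hw, Equiv.Perm.mul_apply, ← hv3 m hm, ← hk2 m (2 * (m : ℝ)) ⟨by linarith, by linarith⟩,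
      inv_app]
  have hwa : w (-(2 * (R : ℝ))) = -(2 * (R : ℝ)) := by
    have := hwfix (-(R : ℤ)) (by
      rw [show (2 : ℤ) * (-(R : ℤ)) = -(2 * R) by ring, abs_neg, abs_of_nonneg (by positivity)]
      omega)
    push_cast at this
    rw [show 2 * (-(R : ℝ)) = -(2 * (R : ℝ)) by ring] at this
    exact this
  have hwb : w (2 * (R : ℝ)) = 2 * (R : ℝ) := by
    have := hwfix (R : ℤ) (by rw [abs_of_nonneg (by positivity)]; omega)
    push_cast at this
    exact this
  obtain ⟨c, hc1, hc2, hc3⟩ := exists_cut w hwm _ _ hwa hwb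
  have hcK : c ∈ K := by
    apply compact_mem (4 * R) (-(2 * (R : ℤ))) c hc1
    apply hc3.mono
    intro x hx
    refine ⟨?_, ?_⟩
    · have := hx.1; push_cast; linarith
    · have := hx.2; push_cast; linarith
  have hrest : c⁻¹ * w ∈ K := by
    apply even_mem _ (inc_mul (inc_inv hc1) hwm)
    intro m
    rw [Equiv.Perm.mul_apply]
    by_cases hm : (2 * (m : ℝ)) ∈ Set.Ioo (-(2 * (R : ℝ))) (2 * (R : ℝ))
    · rw [← hc2 _ hm, inv_app]
    · have hm' : (R : ℤ) ≤ |2 * m| := by
        by_contra hlt
        push Not at hlt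
        apply hm
        have h1 := abs_lt.1 hlt
        have h2 : (-(R : ℤ) : ℝ) < ((2 * m : ℤ) : ℝ) := by exact_mod_cast h1.1
        have h3 : ((2 * m : ℤ) : ℝ) < ((R : ℤ) : ℝ) := by exact_mod_cast h1.2
        push_cast at h2 h3
        have h4 : (0 : ℝ) ≤ R := Nat.cast_nonneg R
        exact ⟨by linarith, by linarith⟩
      rw [hwfix m hm', Equiv.Perm.inv_eq_iff_eq]
      exact (hc3 _ hm).symm
  have e1 : s = k * (c * (c⁻¹ * w)) := by
    rw [mul_inv_cancel_left, hw, mul_inv_cancel_left]
  rw [e1]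
  exact K.mul_mem hkK (K.mul_mem hcK hrest)

end Pool.Agent.Y40.HR
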