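import Pool.Agent.Y40.HRTwo

/-! Three elements supported in slots, from the unit translation and one more element. -/

set_option autoImplicit false

namespace Pool.Agent.Y40.HR

/-- a Golomb ruler modulo 13 -/
def rul : Fin 4 → ℤ := ![0, 1, 4, 6]

theorem slot_eq {a b : ℤ} {x : ℝ} (ha : x - 8 * (a : ℝ) ∈ per (-3) 5)
    (hb : x - 8 * (b : ℝ) ∈ per (-3) 5) : ∃ k : ℤ, a - b = 13 * k := by
  obtain ⟨n, h1, h2⟩ := ha
  obtain ⟨m, h3, h4⟩ := hb
  refine ⟨m - n, ?_⟩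
  have g1 : (a : ℝ) - b < 13 * (m - n) + 1 := by linarith
  have g2 : 13 * ((m : ℝ) - n) < a - b + 1 := by linarith
  have g3 : a - b < 13 * (m - n) + 1 := by exact_mod_cast g1
  have g4 : 13 * (m - n) < a - b + 1 := by exact_mod_cast g2
  omega

theorem rul_inj (i j : Fin 4) (k : ℤ) (h : rul i - rul j = 13 * k) : i = j := by
  fin_cases i <;> fin_cases j <;> simp [rul] at h ⊢ <;> omega

theorem rul_diff (r l l' : Fin 4) (hr : r ≠ 0) (hl : l ≠ r) (hl' : l' ≠ 0) (k : ℤ) :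
    rul l - rul r - rul l' ≠ 13 * k := by
  fin_cases r <;> fin_cases l <;> fin_cases l' <;> simp [rul] at hr hl hl' ⊢ <;> omega

theorem two_of_three (c : Fin 3 → Pm) (hc : ∀ r, StrictMono (c r))
    (hs : ∀ r, Supp (per (-2) 4) (c r)) :
    ∃ g : Pm, StrictMono g ∧ ∀ r, c r ∈ Subgroup.closure ({tr 1, g} : Set Pm) := by
  obtain ⟨T, hT, hTs, hTw⟩ := exists_wander (-2) 4 (by norm_num) (by norm_num)
  norm_num at hTs
  have hsub : per (-2) 4 ⊆ per (-3) 5 := by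
    rintro x ⟨n, h1, h2⟩
    exact ⟨n, by linarith, by linarith⟩
  have hex : ∀ r, ∃ V : Pm, StrictMono V ∧ Supp (per (-3) 5) V ∧ c r = V * T * V⁻¹ * T⁻¹ :=
    fun r => exists_comm (per (-2) 4) (per (-3) 5) hsub T hT hTs hTw (c r) (hc r) (hs r)
  choose F hF1 hF2 hF3 using hex
  obtain ⟨d, hd1, hd2, hd0, hdF⟩ : ∃ d : Fin 4 → Pm, (∀ r, StrictMono (d r)) ∧
      (∀ r, Supp (per (-3) 5) (d r)) ∧ d 0 = T ∧ ∀ r : Fin 3, d r.succ = F r := by
    refine ⟨Fin.cons T F, ?_, ?_, rfl, fun r => rfl⟩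
    · intro r
      refine Fin.cases ?_ ?_ r
      · exact hT
      · exact hF1
    · intro r
      refine Fin.cases ?_ ?_ r
      · exact hTs
      · exact hF2
  have q1 : ∀ (i j : Fin 4) (x : ℝ), x ∈ {x : ℝ | x - 8 * (rul i : ℝ) ∈ per (-3) 5} →
      x ∈ {x : ℝ | x - 8 * (rul j : ℝ) ∈ per (-3) 5} → i = j := by
    intro i j x hi hj
    obtain ⟨k, hk⟩ := slot_eq hi hj
    exact rul_inj i j k hk
  have q2 : ∀ r : Fin 4, Supp {x : ℝ | x - 8 * (rul r : ℝ) ∈ per (-3) 5}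
      (cj (8 * (rul r : ℝ)) (d r)) := by
    intro r x hx
    rw [cj_apply, hd2 r _ hx]
    ring
  have q3 : ∀ r : Fin 4, StrictMono (cj (8 * (rul r : ℝ)) (d r)) := fun r => cj_mono (hd1 r)
  obtain ⟨g, hg1, hg2, hg3⟩ := exists_prod _ _ q1 q2 q3
  refine ⟨g, hg1, ?_⟩
  intro r
  set G := Subgroup.closure ({tr 1, g} : Set Pm) with hG
  have m1 : tr 1 ∈ G := Subgroup.subset_closure (Set.mem_insert _ _)
  have m2 : g ∈ G := Subgroup.subset_closure (Set.mem_insert_of_mem _ rfl)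
  have m3 : cj (-(8 * (rul r.succ : ℝ))) g ∈ G := by
    have := (cj_mem G m1 (-(8 * rul r.succ)) g).2 m2
    push_cast at this
    exact this
  set P : Pm := cj (-(8 * (rul r.succ : ℝ))) g with hP
  have hPx : ∀ x, P x = g (x + 8 * (rul r.succ : ℝ)) - 8 * (rul r.succ : ℝ) := by
    intro x
    rw [hP, cj_apply, sub_neg_eq_add, sub_eq_add_neg]
  have hPF : ∀ x ∈ per (-3) 5, P x = F r x := by
    intro x hx
    rw [hPx, hg2 r.succ (x + 8 * (rul r.succ : ℝ)) (by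
      change x + 8 * (rul r.succ : ℝ) - 8 * (rul r.succ : ℝ) ∈ per (-3) 5
      rw [add_sub_cancel_right]; exact hx), cj_apply, add_sub_cancel_right, hdF,
      add_sub_cancel_right]
  have hQT : ∀ x ∈ per (-3) 5, g x = T x := by
    intro x hx
    have e0 : (rul 0 : ℝ) = 0 := by simp [rul]
    rw [hg2 0 x (by
      change x - 8 * (rul 0 : ℝ) ∈ per (-3) 5
      rw [e0, mul_zero, sub_zero]; exact hx), cj_apply, hd0, e0, mul_zero, sub_zero, add_zero]
  have key := comm_overlap (per (-3) 5)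
    {x : ℝ | ∃ l : Fin 4, l ≠ r.succ ∧ x + 8 * (rul r.succ : ℝ) - 8 * (rul l : ℝ) ∈ per (-3) 5}
    {x : ℝ | ∃ l : Fin 4, l ≠ 0 ∧ x - 8 * (rul l : ℝ) ∈ per (-3) 5}
    P g (F r) T (hF2 r) hTs hPF hQT ?_ ?_ ?_ ?_ ?_
  · rw [hF3 r, ← key]
    exact Subgroup.mul_mem _ (Subgroup.mul_mem _ (Subgroup.mul_mem _ m3 m2)
      (Subgroup.inv_mem _ m3)) (Subgroup.inv_mem _ m2)
  · -- support of `P`
    intro x hx
    rw [hPx, hg3, add_sub_cancel_right]
    intro l hl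
    apply hx
    by_cases hlr : l = r.succ
    · left
      subst hlr
      have hl' : x + 8 * (rul r.succ : ℝ) - 8 * (rul r.succ : ℝ) ∈ per (-3) 5 := hl
      rw [add_sub_cancel_right] at hl'
      exact hl'
    · right
      exact ⟨l, hlr, hl⟩
  · -- support of `g`
    intro x hx
    apply hg3
    intro l hl
    apply hx
    by_cases hl0 : l = 0
    · left
      subst hl0
      have e0 : (rul 0 : ℝ) = 0 := by simp [rul]
      have hl' : x - 8 * (rul 0 : ℝ) ∈ per (-3) 5 := hl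
      rw [e0, mul_zero, sub_zero] at hl'
      exact hl'
    · right
      exact ⟨l, hl0, hl⟩
  · rintro x hx ⟨l, hl, hxl⟩
    have h1 : x - 8 * ((rul l - rul r.succ : ℤ) : ℝ) ∈ per (-3) 5 := by
      push_cast
      rw [show x - 8 * ((rul l : ℝ) - rul r.succ) =
        x + 8 * (rul r.succ : ℝ) - 8 * (rul l : ℝ) by ring]
      exact hxl
    have h2 : x - 8 * ((0 : ℤ) : ℝ) ∈ per (-3) 5 := by simpa using hx
    obtain ⟨k, hk⟩ := slot_eq h1 h2
    rw [sub_zero] at hk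
    exact hl (rul_inj _ _ k hk)
  · rintro x hx ⟨l, hl, hxl⟩
    have h2 : x - 8 * ((rul 0 : ℤ) : ℝ) ∈ per (-3) 5 := by simpa [rul] using hx
    obtain ⟨k, hk⟩ := slot_eq hxl h2
    exact hl (rul_inj _ _ k hk)
  · rintro x ⟨l, hl, hxl⟩ ⟨l', hl', hxl'⟩
    have h1 : x - 8 * ((rul l - rul r.succ : ℤ) : ℝ) ∈ per (-3) 5 := by
      push_cast
      rw [show x - 8 * ((rul l : ℝ) - rul r.succ) =
        x + 8 * (rul r.succ : ℝ) - 8 * (rul l : ℝ) by ring]
      exact hxl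
    obtain ⟨k, hk⟩ := slot_eq h1 hxl'
    exact rul_diff r.succ l l' (Fin.succ_ne_zero r) hl hl' k hk

end Pool.Agent.Y40.HR
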