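import Pool.Agent.Y40.HRGen

/-! Countably many elements supported in the slots lie in a group generated by the unit translation
and one more increasing permutation. -/

set_option autoImplicit false

namespace Pool.Agent.Y40.HR

/-- the infinite product over the translates of a wandering set -/
theorem exists_swindle (Y : Set ℝ) (T : Pm) (hT : StrictMono T)
    (hW : ∀ k : ℕ, 0 < k → ∀ x ∈ Y, (T ^ k) x ∉ Y) (u : ℕ → Pm) (hu : ∀ k, StrictMono (u k))
    (hs : ∀ k, Supp Y (u k)) :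
    ∃ V : Pm, StrictMono V ∧ (∀ k, ∀ x ∈ Y, V ((T ^ k) x) = (T ^ k) (u k x)) ∧
      (∀ x, (∀ k : ℕ, (T ^ k)⁻¹ x ∉ Y) → V x = x) := by
  have q1 : ∀ (i j : ℕ) (x : ℝ), x ∈ {x | (T ^ i)⁻¹ x ∈ Y} → x ∈ {x | (T ^ j)⁻¹ x ∈ Y} →
      i = j := by
    have aux : ∀ (i j : ℕ) (x : ℝ), i < j → (T ^ i)⁻¹ x ∈ Y → (T ^ j)⁻¹ x ∈ Y → False := by
      intro i j x hij hi hj
      apply hW (j - i) (by omega) _ hj
      have h1 : (T ^ (j - i)) ((T ^ j)⁻¹ x) = (T ^ i)⁻¹ x := by
        rw [← Equiv.Perm.mul_apply]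
        congr 1
        rw [eq_inv_iff_mul_eq_one]
        have h2 : T ^ (j - i) * (T ^ j)⁻¹ * T ^ i = T ^ (j - i) * T ^ i * (T ^ j)⁻¹ := by
          rw [mul_assoc, mul_assoc]
          congr 1
          exact ((Commute.refl T).pow_pow i j).inv_right.eq.symm
        rw [h2, ← pow_add, Nat.sub_add_cancel hij.le, mul_inv_cancel]
      rw [h1]
      exact hi
    intro i j x hi hj
    rcases lt_trichotomy i j with h | h | h
    · exact (aux i j x h hi hj).elim
    · exact h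
    · exact (aux j i x h hj hi).elim
  have q2 : ∀ k : ℕ, Supp {x | (T ^ k)⁻¹ x ∈ Y} (T ^ k * u k * (T ^ k)⁻¹) := by
    intro k x hx
    rw [Equiv.Perm.mul_apply, Equiv.Perm.mul_apply, hs k _ hx, app_inv]
  have q3 : ∀ k : ℕ, StrictMono (T ^ k * u k * (T ^ k)⁻¹ : Pm) := by
    intro k
    exact inc_mul (inc_mul (inc_pow hT k) (hu k)) (inc_inv (inc_pow hT k))
  obtain ⟨V, hV1, hV2, hV3⟩ := exists_prod _ _ q1 q2 q3
  refine ⟨V, hV1, ?_, fun x hx => hV3 x hx⟩
  intro k x hx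
  have h1 : (T ^ k) x ∈ {x | (T ^ k)⁻¹ x ∈ Y} := by
    change (T ^ k)⁻¹ ((T ^ k) x) ∈ Y
    rw [inv_app]
    exact hx
  rw [hV2 k _ h1, Equiv.Perm.mul_apply, Equiv.Perm.mul_apply, inv_app]

/-- support of powers -/
theorem Supp.pow {D : Set ℝ} {v : Pm} (h : Supp D v) (k : ℕ) : Supp D (v ^ k) := by
  induction k with
  | zero => exact Supp.one D
  | succ k ih => rw [pow_succ]; exact ih.mul h

/-- commutators with the wandering element -/
theorem exists_comm (Y Z : Set ℝ) (hYZ : Y ⊆ Z) (T : Pm) (hT : StrictMono T) (hTZ : Supp Z T)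
    (hW : ∀ k : ℕ, 0 < k → ∀ x ∈ Y, (T ^ k) x ∉ Y) (u : Pm) (hu : StrictMono u) (hs : Supp Y u) :
    ∃ V : Pm, StrictMono V ∧ Supp Z V ∧ u = V * T * V⁻¹ * T⁻¹ := by
  obtain ⟨V, h1, h2, h3⟩ := exists_swindle Y T hT hW (fun _ => u) (fun _ => hu) (fun _ => hs)
  refine ⟨V, h1, ?_, ?_⟩
  · intro x hx
    apply h3
    intro k hk
    apply hx
    have h4 : (T ^ k)⁻¹ x = x := (hTZ.pow k).inv x hx
    rw [h4] at hk
    exact hYZ hk
  · -- `u T = V T V⁻¹`, equivalently `u T V = V T`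
    rw [eq_mul_inv_iff_mul_eq, eq_mul_inv_iff_mul_eq]
    ext x
    rw [Equiv.Perm.mul_apply, Equiv.Perm.mul_apply, Equiv.Perm.mul_apply]
    by_cases hx : ∃ k : ℕ, (T ^ k)⁻¹ x ∈ Y
    · obtain ⟨k, hk⟩ := hx
      set y := (T ^ k)⁻¹ x with hy
      have e1 : x = (T ^ k) y := by rw [hy, app_inv]
      have e2 : T x = (T ^ (k + 1)) y := by rw [e1, pow_succ', Equiv.Perm.mul_apply]
      have e3 : V x = (T ^ k) (u y) := by rw [e1]; exact h2 k y hk
      have e4 : V (T x) = (T ^ (k + 1)) (u y) := by rw [e2]; exact h2 (k + 1) y hk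
      rw [e3, e4, ← Equiv.Perm.mul_apply, ← Equiv.Perm.mul_apply, mul_assoc, ← pow_succ',
        Equiv.Perm.mul_apply]
      apply hs
      exact hW (k + 1) (by omega) _ (hs.mem hk)
    · push Not at hx
      have e1 : V x = x := h3 x hx
      rw [e1]
      by_cases hTx : T x ∈ Y
      · have := h2 0 (T x) hTx
        rw [pow_zero, Equiv.Perm.one_apply, Equiv.Perm.one_apply] at this
        rw [this]
      · have e2 : V (T x) = T x := by
          apply h3
          intro k hk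
          rcases k with _ | k
          · rw [pow_zero, inv_one, Equiv.Perm.one_apply] at hk
            exact hTx hk
          · apply hx k
            rw [pow_succ', mul_inv_rev, Equiv.Perm.mul_apply, inv_app] at hk
            exact hk
        rw [e2]
        exact hs _ hTx

/-- commutators of partially overlapping elements -/
theorem comm_overlap (Y V W : Set ℝ) (P Q F G : Pm) (hF : Supp Y F) (hG : Supp Y G)
    (hP : ∀ x ∈ Y, P x = F x) (hQ : ∀ x ∈ Y, Q x = G x) (hPs : Supp (Y ∪ V) P)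
    (hQs : Supp (Y ∪ W) Q) (hYV : ∀ x ∈ Y, x ∉ V) (hYW : ∀ x ∈ Y, x ∉ W)
    (hVW : ∀ x ∈ V, x ∉ W) : P * Q * P⁻¹ * Q⁻¹ = F * G * F⁻¹ * G⁻¹ := by
  have hPi : ∀ x ∈ Y, P⁻¹ x = F⁻¹ x := by
    intro x hx
    rw [Equiv.Perm.inv_eq_iff_eq, hP _ (hF.inv.mem hx), app_inv]
  have hQi : ∀ x ∈ Y, Q⁻¹ x = G⁻¹ x := by
    intro x hx
    rw [Equiv.Perm.inv_eq_iff_eq, hQ _ (hG.inv.mem hx), app_inv]
  have hPY : ∀ x, P x ∈ Y → x ∈ Y := by
    intro x hx
    have h1 : F⁻¹ (P x) ∈ Y := hF.inv.mem hx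
    have h2 : P (F⁻¹ (P x)) = P x := by rw [hP _ h1, app_inv]
    rw [← P.injective h2]
    exact h1
  have hQY : ∀ x, Q x ∈ Y → x ∈ Y := by
    intro x hx
    have h1 : G⁻¹ (Q x) ∈ Y := hG.inv.mem hx
    have h2 : Q (G⁻¹ (Q x)) = Q x := by rw [hQ _ h1, app_inv]
    rw [← Q.injective h2]
    exact h1
  have hPV : ∀ x ∈ V, P⁻¹ x ∈ V := by
    intro x hx
    have h1 : P⁻¹ x ∈ Y ∪ V := hPs.inv.mem (Or.inr hx)
    rcases h1 with h1 | h1
    · exfalso
      have h2 : P (P⁻¹ x) ∈ Y := by rw [hP _ h1]; exact hF.mem h1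
      rw [app_inv] at h2
      exact hYV x h2 hx
    · exact h1
  have hQW : ∀ x ∈ W, Q⁻¹ x ∈ W := by
    intro x hx
    have h1 : Q⁻¹ x ∈ Y ∪ W := hQs.inv.mem (Or.inr hx)
    rcases h1 with h1 | h1
    · exfalso
      have h2 : Q (Q⁻¹ x) ∈ Y := by rw [hQ _ h1]; exact hG.mem h1
      rw [app_inv] at h2
      exact hYW x h2 hx
    · exact h1
  ext x
  simp only [Equiv.Perm.mul_apply]
  by_cases hx : x ∈ Y
  · have a1 := hQi x hx
    have b1 : G⁻¹ x ∈ Y := hG.inv.mem hx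
    have a2 := hPi _ b1
    have b2 : F⁻¹ (G⁻¹ x) ∈ Y := hF.inv.mem b1
    have a3 := hQ _ b2
    have b3 : G (F⁻¹ (G⁻¹ x)) ∈ Y := hG.mem b2
    rw [a1, a2, a3, hP _ b3]
  · have c1 : G⁻¹ x = x := hG.inv x hx
    have c2 : F⁻¹ x = x := hF.inv x hx
    have c3 : G x = x := hG x hx
    have c4 : F x = x := hF x hx
    rw [c1, c2, c3, c4]
    by_cases hV : x ∈ V
    · have d1 : Q⁻¹ x = x := hQs.inv x (fun h => h.elim hx (hVW x hV))
      have d2 : P⁻¹ x ∈ V := hPV x hV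
      have d3 : Q (P⁻¹ x) = P⁻¹ x := by
        apply hQs
        rintro (h | h)
        · exact hYV _ h d2
        · exact hVW _ d2 h
      rw [d1, d3, app_inv]
    · have d0 : x ∉ Y ∪ V := fun h => h.elim hx hV
      by_cases hW : x ∈ W
      · have d1 : Q⁻¹ x ∈ W := hQW x hW
        have d2 : P⁻¹ (Q⁻¹ x) = Q⁻¹ x := by
          apply hPs.inv
          rintro (h | h)
          · exact hYW _ h d1
          · exact hVW _ h d1
        rw [d2, app_inv]
        exact hPs x d0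
      · have d1 : Q⁻¹ x = x := hQs.inv x (fun h => h.elim hx hW)
        have d2 : P⁻¹ x = x := hPs.inv x d0
        have d3 : Q x = x := hQs x (fun h => h.elim hx hW)
        rw [d1, d2, d3]
        exact hPs x d0

/-- an element moving the slots off themselves -/
theorem exists_wander (a b : ℝ) (hab : a < b) (hb : b + 1 - (a - 1) ≤ 104) :
    ∃ T : Pm, StrictMono T ∧ Supp (per (a - 1) (b + 1)) T ∧
      ∀ k : ℕ, 0 < k → ∀ x ∈ per a b, (T ^ k) x ∉ per a b := by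
  have hex : ∀ n : ℤ, ∃ φ : Pm, StrictMono φ ∧
      Supp (Set.Ioo (104 * (n : ℝ) + (a - 1)) (104 * n + (b + 1))) φ ∧
      φ (104 * n + a) = 104 * n + b ∧ ∀ x, x ≤ φ x := by
    intro n
    obtain ⟨φ, h1, h2, h3, h4⟩ := exists_move (104 * (n : ℝ) + (a - 1)) (104 * n + (b + 1))
      (104 * n + a) (104 * n + b) (by linarith) (by linarith) (by linarith) (by linarith)
    exact ⟨φ, h1, h2, h3, h4 (by linarith)⟩
  choose φ h1 h2 h3 h4 using hex
  have huniq : ∀ (i j : ℤ) (x : ℝ),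
      x ∈ Set.Ioo (104 * (i : ℝ) + (a - 1)) (104 * i + (b + 1)) →
      x ∈ Set.Ioo (104 * (j : ℝ) + (a - 1)) (104 * j + (b + 1)) → i = j := by
    intro i j x hi hj
    have g1 : (i : ℝ) < j + 1 := by linarith [hi.1, hj.2]
    have g2 : (j : ℝ) < i + 1 := by linarith [hj.1, hi.2]
    have g3 : i < j + 1 := by exact_mod_cast g1
    have g4 : j < i + 1 := by exact_mod_cast g2
    omega
  obtain ⟨T, hT1, hT2, hT3⟩ := exists_prod _ _ huniq h2 h1
  have hge : ∀ x, x ≤ T x := by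
    intro x
    by_cases hx : ∃ n : ℤ, x ∈ Set.Ioo (104 * (n : ℝ) + (a - 1)) (104 * n + (b + 1))
    · obtain ⟨n, hn⟩ := hx
      rw [hT2 n x hn]
      exact h4 n x
    · push Not at hx
      rw [hT3 x hx]
  have hgek : ∀ (k : ℕ) (x : ℝ), x ≤ (T ^ k) x := by
    intro k
    induction k with
    | zero => intro x; exact le_rfl
    | succ k ih =>
      intro x
      rw [pow_succ, Equiv.Perm.mul_apply]
      exact le_trans (hge x) (ih _)
  have hTn : ∀ (n : ℤ) (x : ℝ), x ∈ Set.Ioo (104 * (n : ℝ) + (a - 1)) (104 * n + (b + 1)) →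
      T x ∈ Set.Ioo (104 * (n : ℝ) + (a - 1)) (104 * n + (b + 1)) := by
    intro n x hx
    rw [hT2 n x hx]
    exact (h2 n).mem hx
  have hTkn : ∀ (k : ℕ) (n : ℤ) (x : ℝ),
      x ∈ Set.Ioo (104 * (n : ℝ) + (a - 1)) (104 * n + (b + 1)) →
      (T ^ k) x ∈ Set.Ioo (104 * (n : ℝ) + (a - 1)) (104 * n + (b + 1)) := by
    intro k
    induction k with
    | zero => intro n x hx; exact hx
    | succ k ih =>
      intro n x hx
      rw [pow_succ, Equiv.Perm.mul_apply]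
      exact ih n _ (hTn n x hx)
  refine ⟨T, hT1, ?_, ?_⟩
  · intro x hx
    apply hT3
    intro n hn
    exact hx ⟨n, hn.1, hn.2⟩
  · rintro k hk x ⟨n, hn1, hn2⟩ ⟨m, hm1, hm2⟩
    have hx : x ∈ Set.Ioo (104 * (n : ℝ) + (a - 1)) (104 * n + (b + 1)) :=
      ⟨by linarith, by linarith⟩
    have hTx := hTkn k n x hx
    have hTx' : (T ^ k) x ∈ Set.Ioo (104 * (m : ℝ) + (a - 1)) (104 * m + (b + 1)) :=
      ⟨by linarith, by linarith⟩
    have hmn := huniq n m _ hTx hTx'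
    subst hmn
    obtain ⟨j, rfl⟩ : ∃ j, k = j + 1 := ⟨k - 1, by omega⟩
    have g1 : T (104 * (n : ℝ) + a) < T x := hT1 hn1
    have g2 : T (104 * (n : ℝ) + a) = 104 * n + b := by
      rw [hT2 n _ ⟨by linarith, by linarith⟩, h3]
    have g3 : T x ≤ (T ^ (j + 1)) x := by
      rw [pow_succ, Equiv.Perm.mul_apply]
      exact hgek j _
    linarith

/-- countably many elements in the slots, from three elements in larger slots -/
theorem three_of_countable (t : ℕ → Pm) (ht : ∀ i, t i ∈ H0) :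
    ∃ c : Fin 3 → Pm, (∀ r, StrictMono (c r)) ∧ (∀ r, Supp (per (-2) 4) (c r)) ∧
      ∀ i, t i ∈ Subgroup.closure (Set.range c) := by
  obtain ⟨T1, hT1, hT1s, hT1w⟩ := exists_wander 0 2 (by norm_num) (by norm_num)
  norm_num at hT1s
  obtain ⟨T2, hT2, hT2s, hT2w⟩ := exists_wander (-1) 3 (by norm_num) (by norm_num)
  norm_num at hT2s
  have hsub : per 0 2 ⊆ per (-1) 3 := by
    rintro x ⟨n, h1, h2⟩
    exact ⟨n, by linarith, by linarith⟩
  have hsub2 : per (-1) 3 ⊆ per (-2) 4 := by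
    rintro x ⟨n, h1, h2⟩
    exact ⟨n, by linarith, by linarith⟩
  have hex : ∀ i, ∃ V : Pm, StrictMono V ∧ Supp (per (-1) 3) V ∧ t i = V * T1 * V⁻¹ * T1⁻¹ :=
    fun i => exists_comm (per 0 2) (per (-1) 3) hsub T1 hT1 hT1s hT1w (t i) (ht i).1 (ht i).2
  choose F hF1 hF2 hF3 using hex
  obtain ⟨A, hA1, hA2, hA3⟩ := exists_swindle (per (-1) 3) T2 hT2 hT2w F hF1 hF2
  refine ⟨![T1, T2, A], ?_, ?_, ?_⟩
  · intro r
    fin_cases r
    · exact hT1
    · exact hT2
    · exact hA1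
  · intro r
    fin_cases r
    · exact hT1s.mono hsub2
    · exact hT2s
    · intro x hx
      apply hA3
      intro k hk
      apply hx
      have h4 : (T2 ^ k)⁻¹ x = x := (hT2s.pow k).inv x hx
      rw [h4] at hk
      exact hsub2 hk
  · intro i
    have m1 : T1 ∈ Subgroup.closure (Set.range ![T1, T2, A]) :=
      Subgroup.subset_closure ⟨0, rfl⟩
    have m2 : T2 ∈ Subgroup.closure (Set.range ![T1, T2, A]) :=
      Subgroup.subset_closure ⟨1, rfl⟩
    have m3 : A ∈ Subgroup.closure (Set.range ![T1, T2, A]) :=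
      Subgroup.subset_closure ⟨2, rfl⟩
    set P : Pm := (T2 ^ i)⁻¹ * A * T2 ^ i with hP
    have hPF : ∀ x ∈ per (-1) 3, P x = F i x := by
      intro x hx
      rw [hP, Equiv.Perm.mul_apply, Equiv.Perm.mul_apply, hA2 i x hx, inv_app]
    have key := comm_overlap (per (-1) 3) (per (-1) 3)ᶜ ∅ P T1 (F i) T1 (hF2 i) hT1s hPF
      (fun x _ => rfl) (fun x hx => by
        exfalso; exact hx (by rw [Set.union_compl_self]; trivial))
      (hT1s.mono Set.subset_union_left) (fun x hx h => h hx) (fun x _ h => h) (fun x _ h => h)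
    rw [hF3 i, ← key]
    have m4 : P ∈ Subgroup.closure (Set.range ![T1, T2, A]) := by
      rw [hP]
      exact Subgroup.mul_mem _ (Subgroup.mul_mem _ (Subgroup.inv_mem _ (Subgroup.pow_mem _ m2 i))
        m3) (Subgroup.pow_mem _ m2 i)
    exact Subgroup.mul_mem _ (Subgroup.mul_mem _ (Subgroup.mul_mem _ m4 m1)
      (Subgroup.inv_mem _ m4)) (Subgroup.inv_mem _ m1)

end Pool.Agent.Y40.HR
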